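import Pool.Agent.HSN.Kfn

/-!
# Hyperbolic knots of crosscap number two with hidden symmetries

`MP_412ec3_gt`, Q1, a classification.  Let `Γ` be a hyperbolic knot group with meridian `μ` and let `Δ` be a discrete
group between `Γ` and its commensurator which does not normalise `Γ` (hidden symmetries).  Let `n ∈ {3, 6}` be the
order of the rotation group of `Δ` at the cusp and suppose that the index of `Γ` in `Δ` is at least `4 n`.  (By Hoffman
there is for every hyperbolic knot with hidden symmetries such a `Δ` with `n = 3`, and its index is divisible by `12`.)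

Suppose that the traces of `Γ` are algebraic integers (or only that the translations of `Δ` at the cusp are generated
by conjugates of the meridian).  If `a, b ∈ Γ` do not commute and `a ^ 2 * b ^ 2` commutes with the meridian but is
not a power of it (this is so if the knot bounds a Klein bottle with a hole: its fundamental group is generated by
`a`, `b`, and `a ^ 2 * b ^ 2` is its boundary), then `Γ` is the group of the figure eight knot.
-/

set_option autoImplicit false

noncomputable section

namespace Pool.Agent.Results.MP_412ec3_gt.CrosscapTwo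

open Matrix
open scoped MatrixGroups

/-- The image in `PSL(2, ℂ)` of a matrix of determinant one. -/
def cls (A : SL(2, ℂ)) : PSL(2, ℂ) := QuotientGroup.mk A

/-- The translation `z ↦ z + β` as an element of `PSL(2, ℂ)`. -/
def trans (β : ℂ) : PSL(2, ℂ) := cls ⟨!![1, β; 0, 1], by simp [Matrix.det_fin_two]⟩

/-- Parabolic elements of `PSL(2, ℂ)`: the nontrivial elements represented by a matrix of trace `2`. -/
def IsParabolic (g : PSL(2, ℂ)) : Prop := g ≠ 1 ∧ ∃ A : SL(2, ℂ), cls A = g ∧ A.1.trace = 2

/-- `Γ` is a hyperbolic knot group with meridian `μ`: discrete, torsion free, normally generated by the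
parabolic element `μ`, with one cusp (every parabolic element of `Γ` is conjugate in `Γ` to an element which
commutes with `μ`, that is, which fixes the fixed point of `μ`), this cusp has rank two, and the abelianization
is infinite. -/
structure IsKnotGroup (Γ : Subgroup PSL(2, ℂ)) (μ : PSL(2, ℂ)) : Prop where
  discrete : DiscreteTopology Γ
  torsionFree : ∀ g ∈ Γ, ∀ n : ℕ, 0 < n → g ^ n = 1 → g = 1
  mem : μ ∈ Γ
  parabolic : IsParabolic μ
  normalGen : Subgroup.normalClosure ({⟨μ, mem⟩} : Set Γ) = ⊤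
  oneCusp : ∀ g ∈ Γ, IsParabolic g → ∃ γ ∈ Γ, Commute (γ * g * γ⁻¹) μ
  rankTwo : ∃ τ ∈ Γ, Commute τ μ ∧ ∀ a b : ℤ, μ ^ a * τ ^ b = 1 → a = 0 ∧ b = 0
  infinite : Infinite (Abelianization Γ)

/-- All traces are algebraic integers. -/
def IntegralTraces (Γ : Subgroup PSL(2, ℂ)) : Prop := ∀ A : SL(2, ℂ), cls A ∈ Γ → IsIntegral ℤ A.1.trace

/-- The element `δ` fixes the fixed point of the parabolic element `μ`. -/
def FixesCusp (δ μ : PSL(2, ℂ)) : Prop := Commute (δ * μ * δ⁻¹) μ

/-- The rotation group of `Δ` at the fixed point of `μ` has order `n`: some element of `Δ` of order `n` fixes this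
point, and the `n`-th power of every element of `Δ` which fixes it commutes with `μ`. -/
def IsCuspOrder (Δ : Subgroup PSL(2, ℂ)) (μ : PSL(2, ℂ)) (n : ℕ) : Prop :=
  (∃ δ ∈ Δ, FixesCusp δ μ ∧ orderOf δ = n) ∧ ∀ δ ∈ Δ, FixesCusp δ μ → Commute (δ ^ n) μ

/-- The elements of `Δ` which commute with `μ` are products of conjugates of `μ` in `Δ` which commute with `μ`. -/
def MeridianGenerates (Δ : Subgroup PSL(2, ℂ)) (μ : PSL(2, ℂ)) : Prop :=
  ∀ g ∈ Δ, Commute g μ → g ∈ Subgroup.closure {x | (∃ δ ∈ Δ, x = δ * μ * δ⁻¹) ∧ Commute x μ}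

/-- The group generated by `z ↦ z + 1` and `z ↦ z / (1 - w z)`.  For a primitive third root of unity `w` this is the
group of the figure eight knot. -/
def figureEight (w : ℂ) : Subgroup PSL(2, ℂ) :=
  Subgroup.closure {trans 1, cls ⟨!![1, 0; -w, 1], by simp [Matrix.det_fin_two]⟩}

/-- Let `Γ` be a hyperbolic knot group and `Δ` a discrete subgroup of the commensurator of `Γ` which contains
`Γ` and is not contained in the normalizer of `Γ` (hidden symmetries), with rotation group of order `3` or `6` at
the cusp and with index at least `4 n`.  If the traces of `Γ` are integral and `Γ` contains elements `a`, `b` which do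
not commute and for which `a ^ 2 * b ^ 2` commutes with the meridian but is not a power of it, then `Γ` is the figure
eight group. -/
theorem result (Γ Δ : Subgroup PSL(2, ℂ)) (μ : PSL(2, ℂ)) (hΓ : IsKnotGroup Γ μ) (h1 : Γ ≤ Δ)
    (h2 : Δ ≤ Subgroup.Commensurable.commensurator Γ) (hd : DiscreteTopology Δ)
    (hn : ¬ Δ ≤ Subgroup.normalizer (Γ : Set PSL(2, ℂ)))
    (hi : IntegralTraces Γ ∨ MeridianGenerates Δ μ)
    (n : ℕ) (hn3 : n = 3 ∨ n = 6) (hc : IsCuspOrder Δ μ n) (h12 : 4 * n ≤ Γ.relIndex Δ)
    (hk : ∃ a ∈ Γ, ∃ b ∈ Γ, a * b ≠ b * a ∧ Commute (a ^ 2 * b ^ 2) μ ∧ a ^ 2 * b ^ 2 ∉ Subgroup.zpowers μ) :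
    ∃ (p : PSL(2, ℂ)) (w : ℂ), w ^ 2 + w + 1 = 0 ∧ p * trans 1 * p⁻¹ = μ ∧
      Γ = (figureEight w).map (MulAut.conj p).toMonoidHom := by
  obtain ⟨a, ha, b, hb, hab, hcm, hm⟩ := hk
  have h : Pool.Agent.HSK.IsKnotGroup Γ μ :=
    ⟨hΓ.discrete, hΓ.torsionFree, hΓ.mem, hΓ.parabolic, hΓ.normalGen, hΓ.oneCusp, hΓ.rankTwo, hΓ.infinite⟩
  exact Pool.Agent.HSN.klein h h1 h2 hd hn hi hn3 hc h12 ha hb hab hcm hm

end Pool.Agent.Results.MP_412ec3_gt.CrosscapTwo
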