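import Pool.Agent.HSK.Conj3

/-!
# Hyperbolic knot complements with hidden symmetries

`MP_412ec3_gt`, Q1, necessary conditions.  Let `Γ` be a hyperbolic knot group and let `Δ` be a discrete group
between `Γ` and its commensurator which does not normalise `Γ`.  The cusp of `Δ` is rigid, with rotation group of
order `n = 3, 4, 6`.

* The trace field of `Γ` contains `√-3` if `n = 3, 6` and a primitive eighth root of unity if `n = 4`
  (classically: `√-3` or `i`).
* The parabolic elements of the cusp normally generate `Δ`, or `n = 6` and they generate a subgroup of index two.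
* No rotation of `Δ` at the cusp, other than the rotations by the angle `π`, maps the meridian to an element of `Γ`;
  every element of `Δ` which does not normalise `Γ` is, up to `Γ` on both sides, such a rotation.
* If `Γ` has integral traces, then the translations of `Δ` at the cusp are generated by the conjugates of the
  meridian.  Whenever this is so, the index of `Γ` in `Δ` is read off from the cusp shape of the knot, and the
  elements of `Δ` which do not normalise `Γ` form at most two double cosets of `Γ`, only one if `n = 3, 4`.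
-/

set_option autoImplicit false

noncomputable section

namespace Pool.Agent.Results.MP_412ec3_gt.HiddenSym

open Matrix
open scoped MatrixGroups

/-- The image in `PSL(2, ℂ)` of a matrix of determinant one. -/
def cls (A : SL(2, ℂ)) : PSL(2, ℂ) := QuotientGroup.mk A

/-- The translation `z ↦ z + β` as an element of `PSL(2, ℂ)`. -/
def trans (β : ℂ) : PSL(2, ℂ) := cls ⟨!![1, β; 0, 1], by simp [Matrix.det_fin_two]⟩

/-- Parabolic elements of `PSL(2, ℂ)`: the nontrivial elements represented by a matrix of trace `2`. -/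
def IsParabolic (g : PSL(2, ℂ)) : Prop := g ≠ 1 ∧ ∃ A : SL(2, ℂ), cls A = g ∧ A.1.trace = 2

/-- `Γ` is a hyperbolic knot group with meridian `μ`: discrete, torsion free, normally generated by the
parabolic element `μ`, with one cusp (every parabolic element of `Γ` is conjugate in `Γ` to an element which
commutes with `μ`, that is, which fixes the fixed point of `μ`), this cusp has rank two, and the abelianization
is infinite. -/
structure IsKnotGroup (Γ : Subgroup PSL(2, ℂ)) (μ : PSL(2, ℂ)) : Prop where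
  discrete : DiscreteTopology Γ
  torsionFree : ∀ g ∈ Γ, ∀ n : ℕ, 0 < n → g ^ n = 1 → g = 1
  mem : μ ∈ Γ
  parabolic : IsParabolic μ
  normalGen : Subgroup.normalClosure ({⟨μ, mem⟩} : Set Γ) = ⊤
  oneCusp : ∀ g ∈ Γ, IsParabolic g → ∃ γ ∈ Γ, Commute (γ * g * γ⁻¹) μ
  rankTwo : ∃ τ ∈ Γ, Commute τ μ ∧ ∀ a b : ℤ, μ ^ a * τ ^ b = 1 → a = 0 ∧ b = 0
  infinite : Infinite (Abelianization Γ)

/-- The trace field of a subgroup of `PSL(2, ℂ)`. -/
def traceField (Γ : Subgroup PSL(2, ℂ)) : Subfield ℂ :=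
  Subfield.closure {t | ∃ A : SL(2, ℂ), cls A ∈ Γ ∧ A.1.trace = t}

/-- All traces are algebraic integers. -/
def IntegralTraces (Γ : Subgroup PSL(2, ℂ)) : Prop := ∀ A : SL(2, ℂ), cls A ∈ Γ → IsIntegral ℤ A.1.trace

/-- The subgroup of `Δ` generated by the conjugates in `Δ` of the parabolic elements of `Δ` which commute with
`μ` (these are the parabolic elements of `Δ` at the cusp of `μ`). -/
def cuspGen (Δ : Subgroup PSL(2, ℂ)) (μ : PSL(2, ℂ)) : Subgroup PSL(2, ℂ) :=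
  Subgroup.closure {g | ∃ δ ∈ Δ, ∃ t ∈ Δ, IsParabolic t ∧ Commute t μ ∧ g = δ * t * δ⁻¹}

/-- The element `δ` fixes the fixed point of the parabolic element `μ`. -/
def FixesCusp (δ μ : PSL(2, ℂ)) : Prop := Commute (δ * μ * δ⁻¹) μ

/-- The rotation group of `Δ` at the fixed point of `μ` has order `n`: some element of `Δ` of order `n` fixes this
point, and the `n`-th power of every element of `Δ` which fixes it commutes with `μ`. -/
def IsCuspOrder (Δ : Subgroup PSL(2, ℂ)) (μ : PSL(2, ℂ)) (n : ℕ) : Prop :=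
  (∃ δ ∈ Δ, FixesCusp δ μ ∧ orderOf δ = n) ∧ ∀ δ ∈ Δ, FixesCusp δ μ → Commute (δ ^ n) μ

/-- `s` is a cusp shape of `(Γ, μ)`: in suitable coordinates `μ` is `z ↦ z + 1` and the elements of `Γ` which
commute with `μ` are the translations by the elements of `ℤ + ℤ s`. -/
def IsCuspShape (Γ : Subgroup PSL(2, ℂ)) (μ : PSL(2, ℂ)) (s : ℂ) : Prop :=
  ∃ P : SL(2, ℂ), cls P * trans 1 * (cls P)⁻¹ = μ ∧ cls P * trans s * (cls P)⁻¹ ∈ Γ ∧
    ∀ g ∈ Γ, Commute g μ → ∃ a b : ℤ, g = cls P * trans (a + b * s) * (cls P)⁻¹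

/-- The elements of `Δ` which commute with `μ` are products of conjugates of `μ` in `Δ` which commute with `μ`. -/
def MeridianGenerates (Δ : Subgroup PSL(2, ℂ)) (μ : PSL(2, ℂ)) : Prop :=
  ∀ g ∈ Δ, Commute g μ → g ∈ Subgroup.closure {x | (∃ δ ∈ Δ, x = δ * μ * δ⁻¹) ∧ Commute x μ}

/-- `δ` lies in the double coset `Γ δ₁ Γ`. -/
def InDoubleCoset (Γ : Subgroup PSL(2, ℂ)) (δ₁ δ : PSL(2, ℂ)) : Prop := ∃ γ ∈ Γ, ∃ γ' ∈ Γ, δ = γ * δ₁ * γ'

/-- Let `Γ` be a hyperbolic knot group and `Δ` a discrete subgroup of the commensurator of `Γ` which contains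
`Γ` and is not contained in the normalizer of `Γ` (hidden symmetries). -/
theorem result (Γ Δ : Subgroup PSL(2, ℂ)) (μ : PSL(2, ℂ)) (hΓ : IsKnotGroup Γ μ) (h1 : Γ ≤ Δ)
    (h2 : Δ ≤ Subgroup.Commensurable.commensurator Γ) (hd : DiscreteTopology Δ)
    (hn : ¬ Δ ≤ Subgroup.normalizer (Γ : Set PSL(2, ℂ))) :
    ∃ n : ℕ, (n = 3 ∨ n = 4 ∨ n = 6) ∧ IsCuspOrder Δ μ n ∧
      (n ≠ 4 → ∃ s ∈ traceField Γ, s ^ 2 = -3) ∧
      (n = 4 → ∃ s ∈ traceField Γ, s ^ 4 = -1) ∧
      (cuspGen Δ μ = Δ ∨ (n = 6 ∧ (cuspGen Δ μ).relIndex Δ = 2)) ∧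
      (∀ A : SL(2, ℂ), cls A ∈ cuspGen Δ μ → A.1.trace ∈ traceField Γ) ∧
      (∀ δ ∈ Δ, FixesCusp δ μ → δ * μ * δ⁻¹ ≠ μ → δ * μ * δ⁻¹ ≠ μ⁻¹ → δ * μ * δ⁻¹ ∉ Γ) ∧
      (∀ δ ∈ Δ, δ ∈ Subgroup.normalizer (Γ : Set PSL(2, ℂ)) ∨
        ∃ r ∈ Δ, FixesCusp r μ ∧ ¬ Commute (r ^ 2) μ ∧ InDoubleCoset Γ r δ) ∧
      (IntegralTraces Γ → MeridianGenerates Δ μ) ∧
      (MeridianGenerates Δ μ →
        (∀ s : ℂ, IsCuspShape Γ μ s →
          ∃ (z : ℂ) (x y : ℤ), IsPrimitiveRoot z n ∧ s = x + y * z ∧ Γ.relIndex Δ = n * y.natAbs) ∧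
        (∃ δ₁ ∈ Δ, ∃ δ₂ ∈ Δ, (n ≠ 6 → δ₁ = δ₂) ∧ ∀ δ ∈ Δ,
          δ ∈ Subgroup.normalizer (Γ : Set PSL(2, ℂ)) ∨ InDoubleCoset Γ δ₁ δ ∨ InDoubleCoset Γ δ₂ δ)) := by
  have h : Pool.Agent.HSK.IsKnotGroup Γ μ :=
    ⟨hΓ.discrete, hΓ.torsionFree, hΓ.mem, hΓ.parabolic, hΓ.normalGen, hΓ.oneCusp, hΓ.rankTwo, hΓ.infinite⟩
  exact Pool.Agent.HSK.main3 h h1 h2 hd hn

end Pool.Agent.Results.MP_412ec3_gt.HiddenSym
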