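import Pool.Agent.HSI.Sls

/-!
# Hyperbolic knots with hidden symmetries and a short meridian

`MP_412ec3_gt`, Q1, a classification.  Let `Γ` be a hyperbolic knot group with meridian `μ` and let `Δ` be a discrete
group between `Γ` and its commensurator which does not normalise `Γ` (hidden symmetries).  Let `n ∈ {3, 6}` be the
order of the rotation group of `Δ` at the cusp.

If the meridian has length at most `√3` in the maximal cusp of `Δ`, then `Γ` is the group of the figure eight knot or
`Δ` is the group of the tessellation of hyperbolic space by regular ideal dodecahedra (`n = 6`) or its subgroup of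
index two with rotations of order three at the cusps (`n = 3`).

If the traces of `Γ` are algebraic integers (or if the translations of `Δ` at the cusp are generated by conjugates of
the meridian) and the index of `Γ` in `Δ` is at least `4 n`, then this also holds if any slope which is not a power of
the meridian has length at most `6`.  By the `6`-theorem this is so if a surgery on the knot (other than the trivial
one) is exceptional.  (By Hoffman there is for every hyperbolic knot with hidden symmetries such a `Δ` with `n = 3`,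
and its index is divisible by `12`.)

Lengths are measured by traces: an element `l` which fixes the cusp has length at most `L` in the maximal cusp of `Δ`
if and only if it has a conjugate in `Δ` such that the trace of the product of the two differs from `2` by a nonzero
number of modulus at most `L ^ 2`.
-/

set_option autoImplicit false

noncomputable section

namespace Pool.Agent.Results.MP_412ec3_gt.ShortMeridian

open Matrix
open scoped MatrixGroups

/-- The image in `PSL(2, ℂ)` of a matrix of determinant one. -/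
def cls (A : SL(2, ℂ)) : PSL(2, ℂ) := QuotientGroup.mk A

/-- The translation `z ↦ z + β` as an element of `PSL(2, ℂ)`. -/
def trans (β : ℂ) : PSL(2, ℂ) := cls ⟨!![1, β; 0, 1], by simp [Matrix.det_fin_two]⟩

/-- Parabolic elements of `PSL(2, ℂ)`: the nontrivial elements represented by a matrix of trace `2`. -/
def IsParabolic (g : PSL(2, ℂ)) : Prop := g ≠ 1 ∧ ∃ A : SL(2, ℂ), cls A = g ∧ A.1.trace = 2

/-- `Γ` is a hyperbolic knot group with meridian `μ`: discrete, torsion free, normally generated by the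
parabolic element `μ`, with one cusp (every parabolic element of `Γ` is conjugate in `Γ` to an element which
commutes with `μ`, that is, which fixes the fixed point of `μ`), this cusp has rank two, and the abelianization
is infinite. -/
structure IsKnotGroup (Γ : Subgroup PSL(2, ℂ)) (μ : PSL(2, ℂ)) : Prop where
  discrete : DiscreteTopology Γ
  torsionFree : ∀ g ∈ Γ, ∀ n : ℕ, 0 < n → g ^ n = 1 → g = 1
  mem : μ ∈ Γ
  parabolic : IsParabolic μ
  normalGen : Subgroup.normalClosure ({⟨μ, mem⟩} : Set Γ) = ⊤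
  oneCusp : ∀ g ∈ Γ, IsParabolic g → ∃ γ ∈ Γ, Commute (γ * g * γ⁻¹) μ
  rankTwo : ∃ τ ∈ Γ, Commute τ μ ∧ ∀ a b : ℤ, μ ^ a * τ ^ b = 1 → a = 0 ∧ b = 0
  infinite : Infinite (Abelianization Γ)

/-- All traces are algebraic integers. -/
def IntegralTraces (Γ : Subgroup PSL(2, ℂ)) : Prop := ∀ A : SL(2, ℂ), cls A ∈ Γ → IsIntegral ℤ A.1.trace

/-- The element `δ` fixes the fixed point of the parabolic element `μ`. -/
def FixesCusp (δ μ : PSL(2, ℂ)) : Prop := Commute (δ * μ * δ⁻¹) μ

/-- The rotation group of `Δ` at the fixed point of `μ` has order `n`: some element of `Δ` of order `n` fixes this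
point, and the `n`-th power of every element of `Δ` which fixes it commutes with `μ`. -/
def IsCuspOrder (Δ : Subgroup PSL(2, ℂ)) (μ : PSL(2, ℂ)) (n : ℕ) : Prop :=
  (∃ δ ∈ Δ, FixesCusp δ μ ∧ orderOf δ = n) ∧ ∀ δ ∈ Δ, FixesCusp δ μ → Commute (δ ^ n) μ

/-- The elements of `Δ` which commute with `μ` are products of conjugates of `μ` in `Δ` which commute with `μ`. -/
def MeridianGenerates (Δ : Subgroup PSL(2, ℂ)) (μ : PSL(2, ℂ)) : Prop :=
  ∀ g ∈ Δ, Commute g μ → g ∈ Subgroup.closure {x | (∃ δ ∈ Δ, x = δ * μ * δ⁻¹) ∧ Commute x μ}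

/-- The parabolic element `l` has length at most `√L` in the maximal cusp of `Δ`: for some conjugate `δ l δ⁻¹` the
matrices `A`, `B` of trace two which represent `l` and `δ l δ⁻¹` satisfy `0 < |tr (A B) - 2| ≤ L`. -/
def SqLengthAtMost (Δ : Subgroup PSL(2, ℂ)) (l : PSL(2, ℂ)) (L : ℝ) : Prop :=
  ∃ δ ∈ Δ, ∃ A B : SL(2, ℂ), cls A = l ∧ cls B = δ * l * δ⁻¹ ∧ A.1.trace = 2 ∧ B.1.trace = 2 ∧
    (A * B).1.trace ≠ 2 ∧ ‖(A * B).1.trace - 2‖ ≤ L

/-- The group generated by `z ↦ z + 1` and `z ↦ z / (1 - w z)`.  For a primitive third root of unity `w` this is the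
group of the figure eight knot. -/
def figureEight (w : ℂ) : Subgroup PSL(2, ℂ) :=
  Subgroup.closure {trans 1, cls ⟨!![1, 0; -w, 1], by simp [Matrix.det_fin_two]⟩}

/-- The golden ratio. -/
def phi : ℂ := ((1 + Real.sqrt 5) / 2 : ℝ)

/-- The group generated by `z ↦ z + 1`, `z ↦ a ^ 2 z` and `z ↦ -1 / (φ ^ 2 z)`.  If `a ^ 2` is a primitive sixth root
of unity, this is the group of orientation preserving symmetries of the tessellation of hyperbolic space by regular
ideal dodecahedra. -/
def dodecahedral (a : ℂ) : Subgroup PSL(2, ℂ) :=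
  Subgroup.closure {x | ∃ A : SL(2, ℂ), cls A = x ∧
    (A.1 = !![1, 1; 0, 1] ∨ A.1 = !![a, 0; 0, a⁻¹] ∨ A.1 = !![0, -phi⁻¹; phi, 0])}

/-- After a conjugation which takes the meridian to `z ↦ z + 1`, `Γ` is the figure eight group or `Δ` is the
dodecahedral group with rotations of order `n` at infinity. -/
def FigureEightOrDodecahedral (Γ Δ : Subgroup PSL(2, ℂ)) (μ : PSL(2, ℂ)) (n : ℕ) : Prop :=
  ∃ (p : PSL(2, ℂ)) (w : ℂ), w ^ 2 + w + 1 = 0 ∧ p * trans 1 * p⁻¹ = μ ∧
    (Γ = (figureEight w).map (MulAut.conj p).toMonoidHom ∨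
      (n = 3 ∧ Δ = (dodecahedral (w ^ 2)).map (MulAut.conj p).toMonoidHom) ∨
      (n = 6 ∧ Δ = (dodecahedral (Complex.I * w ^ 2)).map (MulAut.conj p).toMonoidHom))

/-- Let `Γ` be a hyperbolic knot group and `Δ` a discrete subgroup of the commensurator of `Γ` which contains
`Γ` and is not contained in the normalizer of `Γ` (hidden symmetries), with rotation group of order `n = 3` or `6` at
the cusp.  If the meridian has length at most `√3` in the maximal cusp of `Δ`, then `Γ` is the figure eight group or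
`Δ` is the dodecahedral group.  If the traces of `Γ` are integral and the index is at least `4 n`, the same holds if
some slope other than the meridian has length at most `6`. -/
theorem result (Γ Δ : Subgroup PSL(2, ℂ)) (μ : PSL(2, ℂ)) (hΓ : IsKnotGroup Γ μ) (h1 : Γ ≤ Δ)
    (h2 : Δ ≤ Subgroup.Commensurable.commensurator Γ) (hd : DiscreteTopology Δ)
    (hn : ¬ Δ ≤ Subgroup.normalizer (Γ : Set PSL(2, ℂ)))
    (n : ℕ) (hn3 : n = 3 ∨ n = 6) (hc : IsCuspOrder Δ μ n) :
    (SqLengthAtMost Δ μ 3 → FigureEightOrDodecahedral Γ Δ μ n) ∧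
      ((IntegralTraces Γ ∨ MeridianGenerates Δ μ) → 4 * n ≤ Γ.relIndex Δ →
        (∃ l ∈ Γ, Commute l μ ∧ l ∉ Subgroup.zpowers μ ∧ SqLengthAtMost Δ l 36) →
        FigureEightOrDodecahedral Γ Δ μ n) := by
  have h : Pool.Agent.HSK.IsKnotGroup Γ μ :=
    ⟨hΓ.discrete, hΓ.torsionFree, hΓ.mem, hΓ.parabolic, hΓ.normalGen, hΓ.oneCusp, hΓ.rankTwo, hΓ.infinite⟩
  have hs : SqLengthAtMost Δ μ 3 → FigureEightOrDodecahedral Γ Δ μ n := by
    rintro ⟨δ, hδ, A, B, hA, hB, hA2, hB2, h0, h3⟩
    exact Pool.Agent.HSI.short_all h h1 h2 hd hn hn3 hc hδ hA hB hA2 hB2 h0 h3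
  refine ⟨hs, ?_⟩
  rintro hi h12 ⟨l, hl, hlm, hlz, δ, hδ, A, B, hA, hB, hA2, hB2, h0, h3⟩
  obtain ⟨A', B', hA', hB', hA2', hB2', h0', h3'⟩ :=
    Pool.Agent.HSI.slope_short h h1 h2 hd hn hi hn3 hc h12 hl hlm hlz hδ hA hB hA2 hB2 h0 h3
  exact hs ⟨δ, hδ, A', B', hA', hB', hA2', hB2', h0', h3'⟩

end Pool.Agent.Results.MP_412ec3_gt.ShortMeridian
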